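import Pool.Agent.Helper13.TR.StC

set_option autoImplicit false

namespace Pool.Agent.Helper38.TR

open Set Topology Pool.Agent.Helper13.TR

private theorem joinedIn_of {X : Type} [TopologicalSpace X] {V U : Set X}
    (H : C(unitInterval × ↥V, X)) (x₁ : X) (h0 : ∀ v : ↥V, H (0, v) = v) (h1 : ∀ v, H (1, v) = x₁)
    (hU : ∀ t v, H (t, v) ∈ U) (v : ↥V) : JoinedIn U (v : X) x₁ := by
  refine ⟨⟨⟨fun t => H (t, v), by fun_prop⟩, h0 v, h1 v⟩, fun t => hU t v⟩

private theorem push_const {X Y : Type} [TopologicalSpace X] [TopologicalSpace Y] (y : Y) (n : ℕ)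
    (z : Ch X n) : ∃ m : ℤ, push (ContinuousMap.const X y) n z =
      Finsupp.single (ContinuousMap.const (Dl n) y) m := by
  classical
  change ∃ m : ℤ, Finsupp.mapDomain (fun σ : Sx X n => (ContinuousMap.const X y).comp σ) z = _
  refine Finsupp.support_subset_singleton'.1 ?_
  refine Finsupp.mapDomain_support.trans ?_
  intro τ hτ
  obtain ⟨σ, _, rfl⟩ := Finset.mem_image.1 hτ
  rw [Finset.mem_singleton]
  rfl

private theorem bd_const {X : Type} [TopologicalSpace X] (y : X) :
    bd 1 (Finsupp.single (ContinuousMap.const (Dl 2) y : Sx X 2) (1 : ℤ)) =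
      Finsupp.single (ContinuousMap.const (Dl 1) y : Sx X 1) (1 : ℤ) := by
  rw [bd, Finsupp.linearCombination_single, one_smul, Fin.sum_univ_three]
  have h : ∀ i : Fin 3, (ContinuousMap.const (Dl 2) y : Sx X 2).comp (face 1 i) =
      ContinuousMap.const (Dl 1) y := fun i => rfl
  simp only [h]
  norm_num

theorem hLCP (hPRI : StPRI) (hPSH : StPSH) (_hSDA : StSDA) (hMON : StMON) : StLCP := by
  intro X _ hX
  refine ⟨?_, ?_⟩
  · rw [locallyPathConnectedSpace_iff_pathComponentIn_mem_nhds]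
    intro x U hU hx
    obtain ⟨V, hV, hxV, hVU, H, x₁, h0, h1, hHU⟩ := hX x U hU hx
    refine Filter.mem_of_superset (hV.mem_nhds hxV) fun v hv => ?_
    exact (joinedIn_of H x₁ h0 h1 hHU ⟨x, hxV⟩).trans (joinedIn_of H x₁ h0 h1 hHU ⟨v, hv⟩).symm
  · intro x U hU hx
    obtain ⟨V, hV, hxV, hVU, H, x₁, h0, h1, hHU⟩ := hX x U hU hx
    refine ⟨V, hV, hxV, hVU, fun z hz hbz => ?_⟩
    obtain ⟨p1, -, -, p4, p5, -⟩ := hPSH ↥V X X ⟨Subtype.val, continuous_subtype_val⟩
      (ContinuousMap.id X)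
    have hz2 : z ∈ cin ((⟨Subtype.val, continuous_subtype_val⟩ : C(↥V, X)) '' (univ : Set ↥V)) 1 := by
      have : (⟨Subtype.val, continuous_subtype_val⟩ : C(↥V, X)) '' (univ : Set ↥V) = V := by
        rw [image_univ]
        exact Subtype.range_coe
      rw [this]
      exact hz
    obtain ⟨z', hz', rfl⟩ := p5 IsEmbedding.subtypeVal univ 1 z hz2
    have hbz' : bd 0 z' = 0 := by
      apply p4 Subtype.val_injective 0
      rw [← p1, hbz, map_zero]
    let Hh : (⟨Subtype.val, continuous_subtype_val⟩ : C(↥V, X)).Homotopy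
        (ContinuousMap.const ↥V x₁) :=
      { toContinuousMap := H
        map_zero_left := fun v => h0 v
        map_one_left := fun v => h1 v }
    obtain ⟨P, -, q2, q3⟩ := hPRI ↥V X _ _ Hh
    have e1 := q2 0 z'
    rw [hbz', map_zero, add_zero] at e1
    obtain ⟨m, hm⟩ := push_const (X := ↥V) x₁ 1 z'
    refine ⟨m • Finsupp.single (ContinuousMap.const (Dl 2) x₁ : Sx X 2) (1 : ℤ) - P 1 z', ?_, ?_⟩
    · refine Submodule.sub_mem _ (Submodule.smul_mem _ _ ?_) ?_
      · refine Finsupp.single_mem_supported ℤ _ ?_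
        rintro _ ⟨t, rfl⟩
        change x₁ ∈ U
        rw [← h1 ⟨x, hxV⟩]
        exact hHU _ _
      · refine (hMON X).1 _ _ 2 ?_ (q3 univ 1 z' hz')
        rintro y ⟨v, -, t, rfl⟩
        exact hHU t v
    · rw [map_sub, map_smul, bd_const]
      have e1' : bd 1 (P 1 z') = _ := e1
      rw [e1', hm, Finsupp.smul_single, smul_eq_mul, mul_one]
      abel

end Pool.Agent.Helper38.TR
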