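import Pool.Agent.Helper13.TR.StA

set_option autoImplicit false

namespace Pool.Agent.Helper38.TR

open Set Topology Pool.Agent.Helper13.TR

private theorem lin_coord {n k : ℕ} (v : Av n k) (t : Dl k) (l : Fin (n + 1)) :
    (lin v t) l = ∑ i, t i * (v i) l := by
  change (∑ i, t i • ((v i : Dl n) : Fin (n + 1) → ℝ)) l = _
  rw [Finset.sum_apply]
  rfl

private theorem face_coord (n : ℕ) (i : Fin (n + 2)) (t : Dl n) (l : Fin (n + 2)) :
    (face n i t) l = ∑ j, if i.succAbove j = l then t j else 0 := by
  change (FunOnFinite.linearMap ℝ ℝ i.succAbove t) l = _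
  rw [FunOnFinite.linearMap_apply_apply, Finset.sum_filter]

private theorem dl_ext {n : ℕ} {s t : Dl n} (h : ∀ l, s l = t l) : s = t :=
  stdSimplex.ext (funext h)

private theorem vert_coord {n : ℕ} (i l : Fin (n + 1)) :
    (stdSimplex.vertex i : Dl n) l = if i = l then 1 else 0 := by
  change (Pi.single i (1 : ℝ) : Fin (n + 1) → ℝ) l = _
  rw [Pi.single_apply]
  simp only [eq_comm]

private theorem lin_vertex (n k : ℕ) (v : Av n k) (i : Fin (k + 1)) :
    lin v (stdSimplex.vertex i) = v i := by
  refine dl_ext fun l => ?_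
  rw [lin_coord, Finset.sum_eq_single i]
  · rw [vert_coord, if_pos rfl, one_mul]
  · intro b _ hb
    rw [vert_coord, if_neg (Ne.symm hb), zero_mul]
  · intro h
    exact absurd (Finset.mem_univ i) h

private theorem face_eq (n : ℕ) (i : Fin (n + 2)) :
    face n i = lin fun j => stdSimplex.vertex (i.succAbove j) := by
  ext1 t
  refine dl_ext fun l => ?_
  rw [lin_coord, face_coord]
  refine Finset.sum_congr rfl fun j _ => ?_
  rw [vert_coord]
  split_ifs <;> simp

private theorem lin_comp (n m k : ℕ) (u : Av m n) (v : Av n k) :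
    (lin u).comp (lin v) = lin (lin u ∘ v) := by
  ext1 t
  refine dl_ext fun l => ?_
  change (lin u (lin v t)) l = _
  rw [lin_coord, lin_coord]
  have h1 : ∀ i, (lin u (v i)) l = ∑ a, (v i) a * (u a) l := fun i => lin_coord u (v i) l
  simp only [Function.comp_apply, h1, lin_coord v t, Finset.sum_mul, Finset.mul_sum]
  rw [Finset.sum_comm]
  refine Finset.sum_congr rfl fun a _ => Finset.sum_congr rfl fun i _ => ?_
  ring

theorem hLNA : StLNA := by
  refine ⟨lin_vertex, face_eq, lin_comp, ?_, ?_⟩
  · intro n k v i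
    rw [face_eq, lin_comp]
    congr 1
    funext j
    exact lin_vertex n (k + 1) v (i.succAbove j)
  · intro n
    ext1 t
    refine dl_ext fun l => ?_
    rw [lin_coord, Finset.sum_eq_single l]
    · change t l * (stdSimplex.vertex l : Dl n) l = t l
      rw [vert_coord, if_pos rfl, mul_one]
    · intro b _ hb
      change t b * (stdSimplex.vertex b : Dl n) l = 0
      rw [vert_coord, if_neg hb, mul_zero]
    · intro h
      exact absurd (Finset.mem_univ l) h

end Pool.Agent.Helper38.TR
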